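import Mathlib
import Pool.Agent.N108.ZZ.Main
import Pool.Agent.TH167.TT.Irr2
import Pool.Agent.TH167.SH.Conv
import Pool.Agent.TH167.SH.Defs
import Pool.Agent.TH167.Neg.Dim

set_option autoImplicit false

/-!
# Prime divisors `C` with `K C ≤ 5` on the blow-up at any number of generic points

Characteristic zero, any number `s ≥ 4` of generic points: every prime divisor `C` with `K C ≤ 5`
has `h¹(C) = 0`, and if `C ^ 2 < 0` then `C` is a `(-1)`-curve.
-/

namespace Pool.Agent.Results.MP_0dccba_ag.CanonicalDegreeFive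

open MvPolynomial Pool.Agent.TH167 Pool.Agent.TH167.SHDefs

/-- The dimension of `H¹` of the class `(d, w)`, computed from `H⁰`. -/
noncomputable def hOne {K : Type} [Field K] {s : ℕ} (P : Fin s → Fin 2 → K) (d : ℕ)
    (w : Fin s → ℕ) : ℤ := dimL P d w - virtdim d w

open Pool.Agent.W609 Pool.Agent.W609.CR in
theorem result (k : Type) [Field k] [CharZero k] [IsAlgClosed k] (s : ℕ) (hs : 4 ≤ s)
    (P : Fin s → Fin 2 → k)
    (hP : AlgebraicIndependent ℚ (fun ij : Fin s × Fin 2 => P ij.1 ij.2))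
    (d : ℕ) (w : Fin s → ℕ) (C : MvPolynomial (Fin 3) k) (hC : Curve P C d w)
    (hK : interK d w ≤ 5) :
    hOne P d w = 0 ∧ (inter d w d w < 0 → inter d w d w = -1 ∧ interK d w = -1) := by
  obtain ⟨r, rfl⟩ : ∃ r, s = r + 4 := ⟨s - 4, by omega⟩
  obtain ⟨h1, h2, h3⟩ := SH.curve_iff.1 hC
  unfold hOne
  rw [SH.dimL_eq, SH.virtdim_eq, SH.inter_eq, SH.interK_eq]
  rw [SH.interK_eq] at hK
  rcases TT.irr_red d P hP w C h1 h2 h3 with ⟨a1, a2, a3⟩ |
    ⟨P1, e, u, G, b1, b2, b3, b4, b5, b6, b7, b8, b9⟩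
  · rw [a1, a2, a3]
    exact ⟨by ring, fun _ => ⟨rfl, rfl⟩⟩
  · obtain ⟨q1, q2, q3⟩ := SH.quad_inv b5
    simp only at q1 q2 q3
    have hdim := N108.ZZ.std_dim b1 b6 (by rw [q2]; linarith)
    have hpos : 0 < Module.finrank k ↥(VS (fun j => aff (P1 j)) u e) := by
      have hfin := vs_fin (fun j => aff (P1 j)) u e
      exact Module.finrank_pos_iff.2 ⟨⟨G, (SH.mem_VS _ _ _ _).2 ⟨b3, fun j => (b4 j).1⟩⟩, 0,
        fun h7 => b2.ne_zero (congrArg Subtype.val h7)⟩
    have hdim' : (Module.finrank k ↥(VS (fun j => aff (P1 j)) u e) : ℤ) = SH.chi e u := by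
      omega
    refine ⟨by rw [← b9, hdim', q1]; ring, fun hneg => ?_⟩
    exfalso
    have hneg' : e ^ 2 < ∑ j, u j ^ 2 := by
      rw [← q3] at hneg
      unfold SH.ip at hneg
      have : ((e ^ 2 : ℕ) : ℤ) < ((∑ j, u j ^ 2 : ℕ) : ℤ) := by
        push_cast
        have h5 : ∑ j, (u j : ℤ) * u j = ∑ j, (u j : ℤ) ^ 2 :=
          Finset.sum_congr rfl fun j _ => by ring
        rw [h5] at hneg
        linarith [sq (e : ℤ)]
      exact_mod_cast this
    have hone := Neg.neg_dim P1 (SH.inj_of_alg b1) u G e b2 b3 b4 hneg'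
    rw [hone] at hdim'
    have h2χ := SH.two_chi e u
    rw [← hdim'] at h2χ
    rw [← q3] at hneg
    have hkk : 0 < SH.kk e u := by
      push_cast at h2χ
      linarith
    have hsum : ∑ j, u j ≤ 3 * e := by
      unfold SH.kk at hkk
      have : ((∑ j, u j : ℕ) : ℤ) ≤ ((3 * e : ℕ) : ℤ) := by
        push_cast
        linarith
      exact_mod_cast this
    have h6 := SH.red_ip b6 (fun j => SH.van_le b2.ne_zero b3 (b4 j).1) hsum
    linarith

end Pool.Agent.Results.MP_0dccba_ag.CanonicalDegreeFive
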