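import Mathlib
import Pool.Agent.N388.EFW.Near
import Pool.Agent.N388.EF.TEST2

set_option autoImplicit false

/-!
# Prime divisors on the plane blown up at eleven generic points, multiplicities `m` and `m + 1`

Let `P i` be 11 points of the plane over a field `k` of characteristic zero whose 22 coordinates are
algebraically independent over `ℚ`. Let `G` be an irreducible form of degree `d` with multiplicity exactly
`w i` at `P i`, where `w i ∈ {m, m + 1}`, `m ≥ 20`, not all `m + 1`, and `∑ w i = 11 m + s`. Then the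
corresponding prime divisor on the blow-up has `h¹ = 0`, except possibly if `3` divides `d` and
`e = (3 + √11) / 2 * (d - √11 m) - s` satisfies `√11 (2 d + 3) < 11 + 2 (11 m + s)`, `0 ≤ e`, and
`(3 √11 - 9) / 2 ≤ e` or `10 ≤ (10 + 3 √11) e + s`.
-/

namespace Pool.Agent.Results.MP_0dccba_ag.PrimeElevenPoints

open MvPolynomial

/-- The homogeneous ideal of the point `(P 0 : P 1 : 1)`. -/
noncomputable def pt {k : Type} [Field k] (P : Fin 2 → k) : Ideal (MvPolynomial (Fin 3) k) :=
  Ideal.span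
    ({MvPolynomial.X 0 - MvPolynomial.C (P 0) * MvPolynomial.X 2,
      MvPolynomial.X 1 - MvPolynomial.C (P 1) * MvPolynomial.X 2} :
      Set (MvPolynomial (Fin 3) k))

/-- The forms of degree `d` with multiplicity at least `w i` at `P i` for all `i`. -/
noncomputable def forms {k : Type} [Field k] {s : ℕ} (P : Fin s → Fin 2 → k) (w : Fin s → ℕ)
    (d : ℕ) : Submodule k (MvPolynomial (Fin 3) k) :=
  MvPolynomial.homogeneousSubmodule (Fin 3) k d ⊓
    Submodule.restrictScalars k (⨅ i : Fin s, pt (P i) ^ (w i))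

theorem result (k : Type) [Field k] [CharZero k] (P : Fin 11 → Fin 2 → k)
    (hP : AlgebraicIndependent ℚ (fun ij : Fin 11 × Fin 2 => P ij.1 ij.2))
    (m s : ℕ) (hm : 20 ≤ m) (w : Fin 11 → ℕ) (hw : ∀ i, w i = m ∨ w i = m + 1)
    (hi : ∃ i, w i = m) (hs : ∑ i, w i = 11 * m + s)
    (d : ℕ) (G : MvPolynomial (Fin 3) k) (hG : Irreducible G) (hGd : G.IsHomogeneous d)
    (hord : ∀ i, G ∈ pt (P i) ^ (w i) ∧ G ∉ pt (P i) ^ (w i + 1))
    (e : ℝ) (he : e = (3 + √11) / 2 * (d - √11 * m) - s)
    (hd : ¬ (3 ∣ d ∧ √11 * (2 * d + 3) < 11 + 2 * (11 * m + s) ∧ 0 ≤ e ∧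
      ((3 * √11 - 9) / 2 ≤ e ∨ 10 ≤ (10 + 3 * √11) * e + s))) :
    Module.finrank k ↥(forms P w d) + ∑ i, (w i + 1).choose 2 = (d + 2).choose 2 := by
  obtain ⟨F, hF, hF'⟩ := N388.EFW.expDim_near11 N388.EF.t_TEST2 hm w hw hi
  have h0 : MvPolynomial.aeval (fun ij : Fin 11 × Fin 2 => P ij.1 ij.2) F ≠ 0 := by
    intro h
    apply hF
    have h1 : Function.Injective
        (MvPolynomial.aeval (R := ℚ) (fun ij : Fin 11 × Fin 2 => P ij.1 ij.2)) := hP
    exact h1 (by rw [h, map_zero])
  have h1 : Module.finrank k ↥(forms P w d) =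
      (d + 2).choose 2 - ∑ i, (w i + 1).choose 2 := hF' P h0 d s e hs he hd
  have hmem : G ∈ forms P w d := by
    unfold forms
    rw [Submodule.mem_inf, Submodule.restrictScalars_mem, Ideal.mem_iInf]
    exact ⟨hGd, fun i => (hord i).1⟩
  have hfin : Module.Finite k ↥(forms P w d) := by
    have h2 : forms P w d ≤ MvPolynomial.homogeneousSubmodule (Fin 3) k d := inf_le_left
    have h3 : Module.Finite k ↥(MvPolynomial.homogeneousSubmodule (Fin 3) k d) :=
      Module.Finite.iff_fg.2 (MvPolynomial.homogeneousSubmodule_fg _ _ d)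
    exact Submodule.finiteDimensional_of_le h2
  have hpos : 0 < Module.finrank k ↥(forms P w d) := by
    rw [Module.finrank_pos_iff_exists_ne_zero]
    refine ⟨⟨G, hmem⟩, fun h => hG.ne_zero ?_⟩
    exact congrArg Subtype.val h
  omega

end Pool.Agent.Results.MP_0dccba_ag.PrimeElevenPoints
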